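import Pool.Agent.Lib.MP_fa837f_gt.P2.Iface

/-!
Module L2: the energy estimate (from MO, FR, L1).
-/

set_option autoImplicit false

open MeasureTheory Matrix Set Filter Topology

namespace Pool.Agent.Lib.MP_fa837f_gt.P2.H84

/-- The pointwise inequality. -/
lemma alg {ι : Type} [Fintype ι] (C : ι → ι → ℝ) (hs : ∀ p q, C p q = C q p) (v w R : ι → ℝ)
    (G χ c η ρ M δ : ℝ)
    (hQ : ∀ a : ι → ℝ, c * ∑ p, a p ^ 2 ≤ ∑ p, ∑ q, C p q * a p * a q) (hc : 0 < c)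
    (hw : ∑ p, ∑ q, C p q * w p * w q ≤ η * ρ) (hM : ∑ p, w p ^ 2 ≤ M) (hχ0 : 0 ≤ χ)
    (hχ1 : χ ≤ 1) (hδ : 0 < δ) (hδρ : δ ≤ η * ρ) :
    1 / 2 * (χ ^ 2 * ∑ p, ∑ q, C p q * v p * v q) - 5 * (η * (ρ * G ^ 2))
        - (1 / c + M / δ) * ∑ q, R q ^ 2 ≤
      ∑ q, (∑ p, C p q * v p + R q) * (2 * χ * G * w q + χ ^ 2 * v q) := by
  have hM0 : 0 ≤ M := le_trans (Finset.sum_nonneg fun p _ => sq_nonneg _) hM
  have hR0 : 0 ≤ ∑ q, R q ^ 2 := Finset.sum_nonneg fun p _ => sq_nonneg _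
  have hχ2 : χ ^ 2 ≤ 1 := by nlinarith
  -- expansion
  have hE : ∑ q, (∑ p, C p q * v p + R q) * (2 * χ * G * w q + χ ^ 2 * v q) =
      χ ^ 2 * (∑ p, ∑ q, C p q * v p * v q) + 2 * χ * G * (∑ p, ∑ q, C p q * v p * w q) +
        2 * χ * G * (∑ q, R q * w q) + χ ^ 2 * ∑ q, R q * v q := by
    rw [Finset.sum_comm (f := fun p q => C p q * v p * v q),
      Finset.sum_comm (f := fun p q => C p q * v p * w q)]
    rw [Finset.mul_sum, Finset.mul_sum, Finset.mul_sum, Finset.mul_sum,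
      ← Finset.sum_add_distrib, ← Finset.sum_add_distrib, ← Finset.sum_add_distrib]
    refine Finset.sum_congr rfl fun q _ => ?_
    have e1 : ∑ p, C p q * v p * v q = (∑ p, C p q * v p) * v q := by
      rw [Finset.sum_mul]
    have e2 : ∑ p, C p q * v p * w q = (∑ p, C p q * v p) * w q := by
      rw [Finset.sum_mul]
    rw [e1, e2]
    ring
  rw [hE]
  -- (i)
  have h1 : 0 ≤ χ ^ 2 / 4 * (∑ p, ∑ q, C p q * v p * v q) +
      2 * χ * G * (∑ p, ∑ q, C p q * v p * w q) +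
      4 * G ^ 2 * ∑ p, ∑ q, C p q * w p * w q := by
    have hq := hQ fun p => χ / 2 * v p + 2 * G * w p
    have hn : 0 ≤ c * ∑ p, (χ / 2 * v p + 2 * G * w p) ^ 2 :=
      mul_nonneg hc.le (Finset.sum_nonneg fun p _ => sq_nonneg _)
    have hsw : ∑ p, ∑ q, C p q * w p * v q = ∑ p, ∑ q, C p q * v p * w q := by
      rw [Finset.sum_comm]
      refine Finset.sum_congr rfl fun q _ => Finset.sum_congr rfl fun p _ => ?_
      rw [hs p q]
      ring
    have he : ∑ p, ∑ q, C p q * (χ / 2 * v p + 2 * G * w p) * (χ / 2 * v q + 2 * G * w q) =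
        χ ^ 2 / 4 * (∑ p, ∑ q, C p q * v p * v q) +
        χ * G * (∑ p, ∑ q, C p q * v p * w q) + χ * G * (∑ p, ∑ q, C p q * w p * v q) +
        4 * G ^ 2 * ∑ p, ∑ q, C p q * w p * w q := by
      simp only [Finset.mul_sum]
      rw [← Finset.sum_add_distrib, ← Finset.sum_add_distrib, ← Finset.sum_add_distrib]
      refine Finset.sum_congr rfl fun p _ => ?_
      rw [← Finset.sum_add_distrib, ← Finset.sum_add_distrib, ← Finset.sum_add_distrib]
      refine Finset.sum_congr rfl fun q _ => ?_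
      ring
    rw [hsw] at he
    rw [he] at hq
    linarith
  -- (ii)
  have h2 : -(1 / c * ∑ q, R q ^ 2) - (c / 4 * ∑ q, v q ^ 2) ≤ ∑ q, R q * v q := by
    rw [Finset.mul_sum, Finset.mul_sum, ← Finset.sum_neg_distrib, ← Finset.sum_sub_distrib]
    refine Finset.sum_le_sum fun q _ => ?_
    have : 0 ≤ (2 * R q + c * v q) ^ 2 / (4 * c) := by positivity
    have h' : (2 * R q + c * v q) ^ 2 / (4 * c) = 1 / c * R q ^ 2 + R q * v q + c / 4 * v q ^ 2 := by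
      field_simp
      ring
    linarith
  -- (iii)
  have h3 : (∑ q, R q * w q) ^ 2 ≤ (∑ q, R q ^ 2) * M :=
    le_trans (Finset.sum_mul_sq_le_sq_mul_sq _ _ _) (mul_le_mul_of_nonneg_left hM hR0)
  have h3' : -(δ * G ^ 2) - M / δ * ∑ q, R q ^ 2 ≤ 2 * χ * G * (∑ q, R q * w q) := by
    have : 0 ≤ (δ * (χ * G) + ∑ q, R q * w q) ^ 2 / δ := by positivity
    have h' : (δ * (χ * G) + ∑ q, R q * w q) ^ 2 / δ =
        δ * (χ ^ 2 * G ^ 2) + 2 * χ * G * (∑ q, R q * w q) + (∑ q, R q * w q) ^ 2 / δ := by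
      field_simp
      ring
    have h4 : (∑ q, R q * w q) ^ 2 / δ ≤ M / δ * ∑ q, R q ^ 2 := by
      rw [div_mul_eq_mul_div]
      exact div_le_div_of_nonneg_right (by linarith [mul_comm (∑ q, R q ^ 2) M]) hδ.le
    have h5 : δ * (χ ^ 2 * G ^ 2) ≤ δ * G ^ 2 := by
      refine mul_le_mul_of_nonneg_left ?_ hδ.le
      nlinarith [sq_nonneg G]
    linarith
  -- assembly
  have hQv := hQ v
  have h6 : χ ^ 2 * (-(1 / c * ∑ q, R q ^ 2) - (c / 4 * ∑ q, v q ^ 2)) ≤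
      χ ^ 2 * ∑ q, R q * v q := mul_le_mul_of_nonneg_left h2 (sq_nonneg _)
  have h7 : χ ^ 2 * (c * ∑ q, v q ^ 2) ≤ χ ^ 2 * ∑ p, ∑ q, C p q * v p * v q :=
    mul_le_mul_of_nonneg_left hQv (sq_nonneg _)
  have h8 : χ ^ 2 * (1 / c * ∑ q, R q ^ 2) ≤ 1 / c * ∑ q, R q ^ 2 :=
    mul_le_of_le_one_left (by positivity) hχ2
  have h9 : 4 * G ^ 2 * ∑ p, ∑ q, C p q * w p * w q ≤ 4 * G ^ 2 * (η * ρ) :=
    mul_le_mul_of_nonneg_left hw (by positivity)
  have h10 : δ * G ^ 2 ≤ η * ρ * G ^ 2 := mul_le_mul_of_nonneg_right hδρ (sq_nonneg _)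
  nlinarith

section

variable {ι : Type} [Fintype ι] [DecidableEq ι]

lemma cpt (T : ℝ) : IsCompact {x : ι → ℝ | ‖x‖ ≤ T} := by
  have : {x : ι → ℝ | ‖x‖ ≤ T} = Metric.closedBall 0 T := by
    ext x
    simp
  rw [this]
  exact isCompact_closedBall 0 T

lemma iOn {f : (ι → ℝ) → ℝ} (hf : Continuous f) (T : ℝ) :
    IntegrableOn f {x : ι → ℝ | ‖x‖ ≤ T} volume :=
  hf.continuousOn.integrableOn_compact (cpt T)

lemma pd_smooth {f : (ι → ℝ) → ℝ} (hf : ContDiff ℝ (⊤ : ℕ∞) f) (p : ι) :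
    ContDiff ℝ (⊤ : ℕ∞) (pd p f) := by
  have h : ContDiff ℝ (⊤ : ℕ∞) (fderiv ℝ f) := hf.fderiv_right (by exact_mod_cast le_rfl)
  exact h.clm_apply contDiff_const

lemma open_gt (T : ℝ) : IsOpen {x : ι → ℝ | T < ‖x‖} := isOpen_lt continuous_const continuous_norm

lemma pd_zero_out {f : (ι → ℝ) → ℝ} {T : ℝ} (h : ∀ x, T < ‖x‖ → f x = 0) (p : ι) :
    ∀ x, T < ‖x‖ → pd p f x = 0 := by
  intro x hx
  have h1 : f =ᶠ[𝓝 x] fun _ => 0 := by
    filter_upwards [(open_gt T).mem_nhds hx] with z hz using h z hz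
  have h2 := h1.fderiv_eq (𝕜 := ℝ)
  unfold pd
  rw [h2]
  simp

lemma pd_cong {f g : (ι → ℝ) → ℝ} {x : ι → ℝ} (h : f =ᶠ[𝓝 x] g) (p : ι) :
    pd p f x = pd p g x := by
  unfold pd
  rw [h.fderiv_eq]

variable {ρ : (ι → ℝ) → ℝ} {A : (ι → ℝ) → ι → ι → ℝ}

lemma low (D : Diff ρ A) (T : ℝ) : ∃ c : ℝ, 0 < c ∧ ∀ x, ‖x‖ ≤ T → ∀ v : ι → ℝ,
    c * ∑ p, v p ^ 2 ≤ ∑ p, ∑ q, (ρ x * A x p q) * v p * v q := by
  have hK : IsCompact ({x : ι → ℝ | ‖x‖ ≤ T} ×ˢ Metric.sphere (0 : ι → ℝ) 1) :=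
    (cpt T).prod (isCompact_sphere 0 1)
  have hcont : Continuous fun z : (ι → ℝ) × (ι → ℝ) =>
      ∑ p, ∑ q, (ρ z.1 * A z.1 p q) * z.2 p * z.2 q := by
    refine continuous_finset_sum _ fun p _ => continuous_finset_sum _ fun q _ => ?_
    have h1 : Continuous fun z : (ι → ℝ) × (ι → ℝ) => ρ z.1 :=
      D.sρ.continuous.comp continuous_fst
    have h2 : Continuous fun z : (ι → ℝ) × (ι → ℝ) => A z.1 p q :=
      (D.sA p q).continuous.comp continuous_fst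
    have h3 : ∀ p, Continuous fun z : (ι → ℝ) × (ι → ℝ) => z.2 p := fun p =>
      (continuous_apply p).comp continuous_snd
    exact ((h1.mul h2).mul (h3 p)).mul (h3 q)
  have hfac : ∀ (x v : ι → ℝ), ∑ p, ∑ q, (ρ x * A x p q) * v p * v q =
      ρ x * ∑ p, ∑ q, A x p q * v p * v q := by
    intro x v
    rw [Finset.mul_sum]
    refine Finset.sum_congr rfl fun p _ => ?_
    rw [Finset.mul_sum]
    refine Finset.sum_congr rfl fun q _ => ?_
    ring
  obtain ⟨m, hm, hmin⟩ := hK.exists_forall_le' (a := 0) hcont.continuousOn (by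
    rintro ⟨x, v⟩ ⟨_, hv⟩
    have hv0 : v ≠ 0 := by
      rintro rfl
      simp at hv
    show 0 < ∑ p, ∑ q, (ρ x * A x p q) * v p * v q
    rw [hfac]
    exact mul_pos (D.pos x) (D.posdef x v hv0))
  refine ⟨m / ((Fintype.card ι : ℝ) + 1), by positivity, fun x hx v => ?_⟩
  by_cases hv : v = 0
  · subst hv
    simp
  · have hvn : 0 < ‖v‖ := norm_pos_iff.mpr hv
    have h1 := hmin (x, ‖v‖⁻¹ • v) ⟨hx, by
      rw [mem_sphere_zero_iff_norm, norm_smul, norm_inv, norm_norm, inv_mul_cancel₀ hvn.ne']⟩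
    have h2 : ∑ p, ∑ q, (ρ x * A x p q) * (‖v‖⁻¹ • v) p * (‖v‖⁻¹ • v) q =
        (‖v‖ ^ 2)⁻¹ * ∑ p, ∑ q, (ρ x * A x p q) * v p * v q := by
      rw [Finset.mul_sum]
      refine Finset.sum_congr rfl fun p _ => ?_
      rw [Finset.mul_sum]
      refine Finset.sum_congr rfl fun q _ => ?_
      simp only [Pi.smul_apply, smul_eq_mul]
      field_simp
    have h3 : m ≤ (‖v‖ ^ 2)⁻¹ * ∑ p, ∑ q, (ρ x * A x p q) * v p * v q := by
      rw [← h2]
      exact h1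
    have h4 : m * ‖v‖ ^ 2 ≤ ∑ p, ∑ q, (ρ x * A x p q) * v p * v q := by
      have := mul_le_mul_of_nonneg_right h3 (sq_nonneg ‖v‖)
      have e : (‖v‖ ^ 2)⁻¹ * (∑ p, ∑ q, (ρ x * A x p q) * v p * v q) * ‖v‖ ^ 2 =
          ∑ p, ∑ q, (ρ x * A x p q) * v p * v q := by
        field_simp
      rw [e] at this
      exact this
    have h5 : ∑ p, v p ^ 2 ≤ ((Fintype.card ι : ℝ) + 1) * ‖v‖ ^ 2 := by
      have : ∑ p, v p ^ 2 ≤ ∑ _p : ι, ‖v‖ ^ 2 := by
        refine Finset.sum_le_sum fun p _ => ?_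
        rw [← sq_abs (v p)]
        have := norm_le_pi_norm v p
        rw [Real.norm_eq_abs] at this
        exact pow_le_pow_left₀ (abs_nonneg _) this 2
      rw [Finset.sum_const, Finset.card_univ, nsmul_eq_mul] at this
      nlinarith [sq_nonneg ‖v‖]
    calc m / ((Fintype.card ι : ℝ) + 1) * ∑ p, v p ^ 2
        ≤ m / ((Fintype.card ι : ℝ) + 1) * (((Fintype.card ι : ℝ) + 1) * ‖v‖ ^ 2) :=
          mul_le_mul_of_nonneg_left h5 (by positivity)
      _ = m * ‖v‖ ^ 2 := by field_simp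
      _ ≤ _ := h4

/-- The truncated function. -/
noncomputable def cutg (g : (ι → ℝ) → ℝ) (T : ℝ) : (ι → ℝ) → ℝ :=
  fun z => if ‖z‖ ≤ T then g z else 0

lemma rho_low (D : Diff ρ A) (T : ℝ) : ∃ c : ℝ, 0 < c ∧ ∀ x, ‖x‖ ≤ T → c ≤ ρ x := by
  obtain ⟨m, hm, h⟩ := (cpt (ι := ι) T).exists_forall_le' (a := 0) D.sρ.continuous.continuousOn
    fun x _ => D.pos x
  exact ⟨m, hm, h⟩

lemma up {f : (ι → ℝ) → ℝ} (hf : Continuous f) (T : ℝ) :
    ∃ M : ℝ, 0 ≤ M ∧ ∀ x, ‖x‖ ≤ T → |f x| ≤ M := by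
  obtain ⟨M, hM⟩ := (cpt (ι := ι) T).exists_bound_of_continuousOn hf.continuousOn
  exact ⟨max M 0, le_max_right _ _, fun x hx => le_max_of_le_left (hM x hx)⟩

lemma l2c_cut (D : Diff ρ A) {g : (ι → ℝ) → ℝ} (hg : AEStronglyMeasurable g volume)
    (hgi : Integrable (fun y => g y ^ 2 * ρ y)) (T : ℝ) : L2c (cutg g T) := by
  have hm : AEStronglyMeasurable (cutg g T) volume := by
    have : cutg g T = Set.indicator {z : ι → ℝ | ‖z‖ ≤ T} g := by
      funext z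
      simp only [cutg, Set.indicator, Set.mem_setOf_eq]
    rw [this]
    exact hg.indicator (cpt T).measurableSet
  refine ⟨hm, ?_, ⟨T, fun x hx => if_neg (not_le.mpr hx)⟩⟩
  obtain ⟨c, hc, hlow⟩ := rho_low D T
  refine (hgi.const_mul c⁻¹).mono' (hm.pow 2) (Eventually.of_forall fun x => ?_)
  rw [Real.norm_eq_abs, abs_of_nonneg (sq_nonneg _)]
  have hp : 0 ≤ g x ^ 2 * ρ x := mul_nonneg (sq_nonneg _) (D.pos x).le
  unfold cutg
  by_cases hx : ‖x‖ ≤ T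
  · rw [if_pos hx]
    rw [inv_mul_eq_div, le_div_iff₀ hc]
    exact mul_le_mul_of_nonneg_left (hlow x hx) (sq_nonneg _)
  · rw [if_neg hx]
    simpa using mul_nonneg (inv_nonneg.mpr hc.le) hp

lemma l2c_mul {g : (ι → ℝ) → ℝ} (hg : L2c g) {h : (ι → ℝ) → ℝ} (hh : Continuous h) :
    L2c fun z => g z * h z := by
  obtain ⟨T, hT⟩ := hg.supp
  have hm : AEStronglyMeasurable (fun z => g z * h z) volume := hg.meas.mul hh.aestronglyMeasurable
  refine ⟨hm, ?_, ⟨T, fun x hx => by rw [hT x hx, zero_mul]⟩⟩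
  obtain ⟨M, hM0, hM⟩ := up hh T
  refine (hg.sq.const_mul (M ^ 2)).mono' (hm.pow 2) (Eventually.of_forall fun x => ?_)
  rw [Real.norm_eq_abs, abs_of_nonneg (sq_nonneg _)]
  by_cases hx : ‖x‖ ≤ T
  · rw [mul_pow, mul_comm (M ^ 2)]
    refine mul_le_mul_of_nonneg_left ?_ (sq_nonneg _)
    rw [← sq_abs (h x)]
    exact pow_le_pow_left₀ (abs_nonneg _) (hM x hx) 2
  · rw [hT x (not_le.mp hx)]
    simp

lemma moll_tst (hMo : MoStatement) {φ g : (ι → ℝ) → ℝ} (hφ : Mol φ) (hg : L2c g) {ε : ℝ}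
    (hε : 0 < ε) : Tst (moll φ g ε) := ((hMo ι φ g hφ hg).1 ε hε).1

lemma mollD_eq (hMo : MoStatement) {φ g : (ι → ℝ) → ℝ} (hφ : Mol φ) (hg : L2c g) {ε : ℝ}
    (hε : 0 < ε) (p : ι) : mollD φ g ε p = pd p (moll φ g ε) := by
  funext x
  exact (((hMo ι φ g hφ hg).1 ε hε).2 p x).symm

lemma moll_cont (hMo : MoStatement) {φ g : (ι → ℝ) → ℝ} (hφ : Mol φ) (hg : L2c g) {ε : ℝ}
    (hε : 0 < ε) : Continuous (moll φ g ε) := (moll_tst hMo hφ hg hε).1.continuous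

lemma mollD_cont (hMo : MoStatement) {φ g : (ι → ℝ) → ℝ} (hφ : Mol φ) (hg : L2c g) {ε : ℝ}
    (hε : 0 < ε) (p : ι) : Continuous (mollD φ g ε p) := by
  rw [mollD_eq hMo hφ hg hε]
  exact (pd_smooth (moll_tst hMo hφ hg hε).1 p).continuous

lemma th_cont (hMo : MoStatement) {φ g : (ι → ℝ) → ℝ} (hφ : Mol φ) (hg : L2c g)
    {C : (ι → ℝ) → ι → ι → ℝ} (hC : ∀ p q, ContDiff ℝ (⊤ : ℕ∞) fun y => C y p q) {ε : ℝ}
    (hε : 0 < ε) (q : ι) : Continuous (Th C φ g ε q) := by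
  have h : Th C φ g ε q = fun x => ∑ p, (mollD φ (fun z => g z * C z p q) ε p x -
      moll φ (fun z => g z * pd p (fun z => C z p q) z) ε x) := rfl
  rw [h]
  refine continuous_finset_sum _ fun p _ => ?_
  exact (mollD_cont hMo hφ (l2c_mul hg (hC p q).continuous) hε p).sub
    (moll_cont hMo hφ (l2c_mul hg (pd_smooth (hC p q) p).continuous) hε)

lemma l1hyp (D : Diff ρ A) {g : (ι → ℝ) → ℝ}
    (horth : ∀ ψ, Tst ψ → ∫ y, g y * Lop ρ A ψ y * ρ y = 0) (T : ℝ) :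
    ∀ ψ, Tst ψ → (∀ x, T < ‖x‖ → ψ x = 0) →
      ∫ x, cutg g T x * ∑ p, pd p (fun z => ∑ q, (ρ z * A z p q) * pd q ψ z) x = 0 := by
  intro ψ hψ hs
  rw [← horth ψ hψ]
  congr 1
  funext x
  have e : ∀ p, (fun z => ∑ q, (ρ z * A z p q) * pd q ψ z) =
      fun z => ρ z * ∑ q, A z p q * pd q ψ z := by
    intro p
    funext z
    rw [Finset.mul_sum]
    refine Finset.sum_congr rfl fun q _ => ?_
    ring
  simp only [e]
  have hρ := (D.pos x).ne'
  unfold cutg Lop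
  by_cases hx : ‖x‖ ≤ T
  · rw [if_pos hx]
    field_simp
  · rw [if_neg hx]
    have h0 : ∀ p, pd p (fun z => ρ z * ∑ q, A z p q * pd q ψ z) x = 0 := by
      intro p
      refine pd_zero_out (T := T) ?_ p x (not_le.mp hx)
      intro z hz
      have : ∑ q, A z p q * pd q ψ z = 0 :=
        Finset.sum_eq_zero fun q _ => by rw [pd_zero_out hs q z hz, mul_zero]
      rw [this, mul_zero]
    simp only [h0]
    simp

lemma mollD_cut {φ g : (ι → ℝ) → ℝ} (hφ : Mol φ) {T T' ε : ℝ} (hT : T ≤ T') (hε : 0 < ε)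
    (hε1 : ε ≤ 1) (p : ι) (x : ι → ℝ) (hx : ‖x‖ ≤ T) :
    mollD φ (cutg g (T + 1)) ε p x = mollD φ (cutg g (T' + 1)) ε p x := by
  unfold mollD
  congr 1
  congr 1
  funext w
  by_cases hw : ‖w‖ ≤ 1
  · have h1 : ‖x - ε • w‖ ≤ T + 1 := by
      calc ‖x - ε • w‖ ≤ ‖x‖ + ‖ε • w‖ := norm_sub_le _ _
        _ = ‖x‖ + ε * ‖w‖ := by rw [norm_smul, Real.norm_eq_abs, abs_of_pos hε]
        _ ≤ T + 1 * 1 := by
          refine add_le_add hx ?_
          exact mul_le_mul hε1 hw (norm_nonneg _) zero_le_one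
        _ = T + 1 := by ring
    have h2 : ‖x - ε • w‖ ≤ T' + 1 := by linarith
    unfold cutg
    rw [if_pos h1, if_pos h2]
  · have : pd p φ w = 0 := pd_zero_out hφ.supp p w (not_le.mp hw)
    rw [this, mul_zero, mul_zero]

lemma pd_u {χ G : (ι → ℝ) → ℝ} (hχ : ContDiff ℝ (⊤ : ℕ∞) χ) (hG : ContDiff ℝ (⊤ : ℕ∞) G) (q : ι)
    (x : ι → ℝ) : pd q (fun x => χ x ^ 2 * G x) x =
      2 * χ x * G x * pd q χ x + χ x ^ 2 * pd q G x := by
  have h1 : HasFDerivAt χ (fderiv ℝ χ x) x := (hχ.differentiable (by simp) x).hasFDerivAt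
  have h2 : HasFDerivAt G (fderiv ℝ G x) x := (hG.differentiable (by simp) x).hasFDerivAt
  have h3 := (h1.pow 2).mul h2
  unfold pd
  have h4 := h3.fderiv
  have e : (fun x => χ x ^ 2 * G x) = (χ ^ 2 * G) := rfl
  have e' : fderiv ℝ (fun x => χ x ^ 2 * G x) x = fderiv ℝ ((fun y => χ y ^ 2) * G) x := rfl
  rw [e', h4]
  simp [smul_eq_mul]
  ring

/-- The energy inequality. -/
lemma energy (hMo : MoStatement) (hL1 : L1Statement) (D : Diff ρ A) {φ g χ : (ι → ℝ) → ℝ}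
    (hφ : Mol φ) (hg : L2c g) {T T' c η : ℝ} (hTT : T ≤ T')
    (hort : ∀ ψ, Tst ψ → (∀ x, T' + 1 < ‖x‖ → ψ x = 0) →
      ∫ x, g x * ∑ p, pd p (fun z => ∑ q, (ρ z * A z p q) * pd q ψ z) x = 0)
    (hχ : Tst χ) (hχb : ∀ y, 0 ≤ χ y ∧ χ y ≤ 1) (hχ1 : ∀ y, ‖y‖ ≤ T → χ y = 1)
    (hχs : ∀ y, T' < ‖y‖ → χ y = 0) (hη : 0 < η) (hGam : ∀ y, Gam A χ χ y ≤ η)
    (hlow : ∀ x, ‖x‖ ≤ T → ∀ v : ι → ℝ,
      c * ∑ p, v p ^ 2 ≤ ∑ p, ∑ q, (ρ x * A x p q) * v p * v q) :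
    ∃ K : ℝ, ∀ ε : ℝ, 0 < ε → ε ≤ 1 →
      c * ∫ x in {x : ι → ℝ | ‖x‖ ≤ T}, ∑ p, mollD φ g ε p x ^ 2 ≤
        10 * η * (∫ x in {x : ι → ℝ | ‖x‖ ≤ T'}, ρ x * moll φ g ε x ^ 2) +
        K * ∑ q, ∫ x in {x : ι → ℝ | ‖x‖ ≤ T'},
          (Th (fun x p q => ρ x * A x p q) φ g ε q x -
            ∑ p, (ρ x * A x p q) * mollD φ g ε p x) ^ 2 := by
  obtain ⟨c', hc', hlow'⟩ := low D T'
  obtain ⟨ρ0, hρ0, hρlow⟩ := rho_low D T'
  have hχd : ∀ q, Continuous (pd q χ) := fun q => (pd_smooth hχ.1 q).continuous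
  have hMc : Continuous fun x => ∑ q, pd q χ x ^ 2 :=
    continuous_finset_sum _ fun q _ => (hχd q).pow 2
  obtain ⟨M, hM0, hM⟩ := up hMc T'
  have hsC : ∀ p q, ContDiff ℝ (⊤ : ℕ∞) fun y => ρ y * A y p q := fun p q => D.sρ.mul (D.sA p q)
  refine ⟨2 * (1 / c' + M / (η * ρ0)), fun ε hε hε1 => ?_⟩
  have hGt := moll_tst hMo hφ hg hε
  have hGc : Continuous (moll φ g ε) := hGt.1.continuous
  have hDc : ∀ p, Continuous (mollD φ g ε p) := fun p => mollD_cont hMo hφ hg hε p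
  have hTc : ∀ q, Continuous (Th (fun x p q => ρ x * A x p q) φ g ε q) := fun q =>
    th_cont hMo hφ hg (C := fun x p q => ρ x * A x p q) hsC hε q
  have hQc : Continuous fun x => ∑ p, ∑ q, (ρ x * A x p q) * mollD φ g ε p x *
      mollD φ g ε q x :=
    continuous_finset_sum _ fun p _ => continuous_finset_sum _ fun q _ =>
      (((hsC p q).continuous).mul (hDc p)).mul (hDc q)
  have hRc : ∀ q, Continuous fun x => Th (fun x p q => ρ x * A x p q) φ g ε q x -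
            ∑ p, (ρ x * A x p q) * mollD φ g ε p x := fun q =>
    (hTc q).sub (continuous_finset_sum _ fun p _ => ((hsC p q).continuous).mul (hDc p))
  -- the test function
  have hu : Tst fun x => χ x ^ 2 * moll φ g ε x := by
    refine ⟨(hχ.1.pow 2).mul hGt.1, ?_⟩
    exact hGt.2.mul_left
  have hu0 : ∀ x, T' < ‖x‖ → χ x ^ 2 * moll φ g ε x = 0 := fun x hx => by
    rw [hχs x hx]; ring
  have hE := hL1 ι φ g (fun x p q => ρ x * A x p q) T' hφ hg hsC hort ε hε hε1 _ hu hu0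
  have hEq : ∀ x, ∑ q, Th (fun x p q => ρ x * A x p q) φ g ε q x *
      pd q (fun x => χ x ^ 2 * moll φ g ε x) x =
      ∑ q, (∑ p, (ρ x * A x p q) * mollD φ g ε p x +
        (Th (fun x p q => ρ x * A x p q) φ g ε q x -
            ∑ p, (ρ x * A x p q) * mollD φ g ε p x)) *
        (2 * χ x * moll φ g ε x * pd q χ x + χ x ^ 2 * mollD φ g ε q x) := by
    intro x
    refine Finset.sum_congr rfl fun q _ => ?_
    rw [pd_u hχ.1 hGt.1, mollD_eq hMo hφ hg hε q]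
    ring
  have hEB : ∫ x in {x : ι → ℝ | ‖x‖ ≤ T'}, (∑ q, Th (fun x p q => ρ x * A x p q) φ g ε q x *
      pd q (fun x => χ x ^ 2 * moll φ g ε x) x) = 0 := by
    rw [setIntegral_eq_integral_of_forall_compl_eq_zero]
    · exact hE
    · intro x hx
      have hx' : T' < ‖x‖ := not_le.mp hx
      refine Finset.sum_eq_zero fun q _ => ?_
      rw [pd_zero_out hu0 q x hx', mul_zero]
  have hEc : Continuous fun x => ∑ q, Th (fun x p q => ρ x * A x p q) φ g ε q x *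
      pd q (fun x => χ x ^ 2 * moll φ g ε x) x :=
    continuous_finset_sum _ fun q _ => (hTc q).mul (pd_smooth hu.1 q).continuous
  -- continuity of the three terms
  have c1 : Continuous fun x => χ x ^ 2 * ∑ p, ∑ q, (ρ x * A x p q) * mollD φ g ε p x *
      mollD φ g ε q x := (hχ.1.continuous.pow 2).mul hQc
  have c2 : Continuous fun x => ρ x * moll φ g ε x ^ 2 := D.sρ.continuous.mul (hGc.pow 2)
  have c3 : Continuous fun x => ∑ q, (Th (fun x p q => ρ x * A x p q) φ g ε q x -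
            ∑ p, (ρ x * A x p q) * mollD φ g ε p x) ^ 2 :=
    continuous_finset_sum _ fun q _ => (hRc q).pow 2
  have hmono := setIntegral_mono_on (μ := volume) (s := {x : ι → ℝ | ‖x‖ ≤ T'})
    (f := fun x => 1 / 2 * (χ x ^ 2 * ∑ p, ∑ q, (ρ x * A x p q) * mollD φ g ε p x *
      mollD φ g ε q x) - 5 * η * (ρ x * moll φ g ε x ^ 2) -
      (1 / c' + M / (η * ρ0)) * ∑ q, (Th (fun x p q => ρ x * A x p q) φ g ε q x -
            ∑ p, (ρ x * A x p q) * mollD φ g ε p x) ^ 2)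
    (g := fun x => ∑ q, Th (fun x p q => ρ x * A x p q) φ g ε q x *
      pd q (fun x => χ x ^ 2 * moll φ g ε x) x)
    (iOn (((continuous_const.mul c1).sub (continuous_const.mul c2)).sub
      (continuous_const.mul c3)) T') (iOn hEc T') (cpt T').measurableSet (by
      intro x hx
      have hx' : ‖x‖ ≤ T' := hx
      show _ ≤ ∑ q, Th (fun x p q => ρ x * A x p q) φ g ε q x *
        pd q (fun x => χ x ^ 2 * moll φ g ε x) x
      rw [hEq x]
      have hw : ∑ p, ∑ q, (ρ x * A x p q) * pd p χ x * pd q χ x ≤ η * ρ x := by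
        have e : ∑ p, ∑ q, (ρ x * A x p q) * pd p χ x * pd q χ x = ρ x * Gam A χ χ x := by
          unfold Gam
          rw [Finset.mul_sum]
          refine Finset.sum_congr rfl fun p _ => ?_
          rw [Finset.mul_sum]
          refine Finset.sum_congr rfl fun q _ => ?_
          ring
        rw [e, mul_comm]
        exact mul_le_mul_of_nonneg_right (hGam x) (D.pos x).le
      have hMx : ∑ q, pd q χ x ^ 2 ≤ M := le_trans (le_abs_self _) (hM x hx')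
      have h := alg (fun p q => ρ x * A x p q) (fun p q => by rw [D.symm x p q])
        (fun p => mollD φ g ε p x) (fun p => pd p χ x)
        (fun q => Th (fun x p q => ρ x * A x p q) φ g ε q x -
            ∑ p, (ρ x * A x p q) * mollD φ g ε p x) (moll φ g ε x) (χ x) c' η (ρ x) M
        (η * ρ0) (hlow' x hx') hc' hw hMx (hχb x).1 (hχb x).2 (mul_pos hη hρ0)
        (mul_le_mul_of_nonneg_left (hρlow x hx') hη.le)
      have e5 : 5 * η * (ρ x * moll φ g ε x ^ 2) = 5 * (η * (ρ x * moll φ g ε x ^ 2)) := by ring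
      rw [e5]
      exact h)
  rw [hEB] at hmono
  have hsplit : ∫ x in {x : ι → ℝ | ‖x‖ ≤ T'}, (1 / 2 * (χ x ^ 2 * ∑ p, ∑ q,
      (ρ x * A x p q) * mollD φ g ε p x *
      mollD φ g ε q x) - 5 * η * (ρ x * moll φ g ε x ^ 2) -
      (1 / c' + M / (η * ρ0)) * ∑ q, (Th (fun x p q => ρ x * A x p q) φ g ε q x -
            ∑ p, (ρ x * A x p q) * mollD φ g ε p x) ^ 2) =
      1 / 2 * (∫ x in {x : ι → ℝ | ‖x‖ ≤ T'}, χ x ^ 2 * ∑ p, ∑ q,
      (ρ x * A x p q) * mollD φ g ε p x * mollD φ g ε q x) -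
      5 * η * (∫ x in {x : ι → ℝ | ‖x‖ ≤ T'}, ρ x * moll φ g ε x ^ 2) -
      (1 / c' + M / (η * ρ0)) * ∑ q, ∫ x in {x : ι → ℝ | ‖x‖ ≤ T'},
        (Th (fun x p q => ρ x * A x p q) φ g ε q x -
            ∑ p, (ρ x * A x p q) * mollD φ g ε p x) ^ 2 := by
    rw [integral_sub, integral_sub, integral_const_mul, integral_const_mul, integral_const_mul,
      integral_finset_sum]
    · intro q _
      exact iOn ((hRc q).pow 2) T'
    · exact iOn (continuous_const.mul c1) T'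
    · exact iOn (continuous_const.mul c2) T'
    · exact iOn ((continuous_const.mul c1).sub (continuous_const.mul c2)) T'
    · exact iOn (continuous_const.mul c3) T'
  rw [hsplit] at hmono
  -- lower bound
  have hnn : ∀ x, ‖x‖ ≤ T' → 0 ≤ χ x ^ 2 * ∑ p, ∑ q, (ρ x * A x p q) * mollD φ g ε p x *
      mollD φ g ε q x := by
    intro x hx
    refine mul_nonneg (sq_nonneg _) (le_trans ?_ (hlow' x hx fun p => mollD φ g ε p x))
    exact mul_nonneg hc'.le (Finset.sum_nonneg fun p _ => sq_nonneg _)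
  have hsub : {x : ι → ℝ | ‖x‖ ≤ T} ⊆ {x : ι → ℝ | ‖x‖ ≤ T'} := fun x hx => le_trans hx hTT
  have h1 : ∫ x in {x : ι → ℝ | ‖x‖ ≤ T}, χ x ^ 2 * ∑ p, ∑ q,
      (ρ x * A x p q) * mollD φ g ε p x * mollD φ g ε q x ≤
      ∫ x in {x : ι → ℝ | ‖x‖ ≤ T'}, χ x ^ 2 * ∑ p, ∑ q,
      (ρ x * A x p q) * mollD φ g ε p x * mollD φ g ε q x := by
    refine setIntegral_mono_set (iOn c1 T') ?_ (Eventually.of_forall hsub)
    filter_upwards [self_mem_ae_restrict (cpt (ι := ι) T').measurableSet] with x hx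
    exact hnn x hx
  have h2 : c * ∫ x in {x : ι → ℝ | ‖x‖ ≤ T}, ∑ p, mollD φ g ε p x ^ 2 ≤
      ∫ x in {x : ι → ℝ | ‖x‖ ≤ T}, χ x ^ 2 * ∑ p, ∑ q,
      (ρ x * A x p q) * mollD φ g ε p x * mollD φ g ε q x := by
    rw [← integral_const_mul]
    refine setIntegral_mono_on (iOn (continuous_const.mul (continuous_finset_sum _ fun p _ =>
      (hDc p).pow 2)) T) (iOn c1 T) (cpt T).measurableSet ?_
    intro x hx
    have hx' : ‖x‖ ≤ T := hx
    show c * ∑ p, mollD φ g ε p x ^ 2 ≤ χ x ^ 2 * ∑ p, ∑ q,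
      (ρ x * A x p q) * mollD φ g ε p x * mollD φ g ε q x
    rw [hχ1 x hx', one_pow, one_mul]
    exact hlow x hx' _
  linarith

end

theorem l2_st (hMo : MoStatement) (hFr : FrStatement) (hL1 : L1Statement) : L2Statement := by
  intro ι _ _ ρ A D g hg hgi horth φ hφ T
  obtain ⟨c, hc, hlow⟩ := low D T
  have hI : 0 ≤ ∫ y, g y ^ 2 * ρ y :=
    integral_nonneg fun y => mul_nonneg (sq_nonneg _) (D.pos y).le
  rw [Metric.tendsto_nhds]
  intro e he
  set η : ℝ := c * e / (2 * (20 * (∫ y, g y ^ 2 * ρ y) + 1)) with hηd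
  have hden : 0 < 2 * (20 * (∫ y, g y ^ 2 * ρ y) + 1) := by positivity
  have hη : 0 < η := div_pos (mul_pos hc he) hden
  obtain ⟨χ, hχ, hχb, hχ1, hGam⟩ := D.cut η hη T
  obtain ⟨T0, hT0⟩ : ∃ T0 : ℝ, ∀ x ∈ tsupport χ, ‖x‖ ≤ T0 :=
    (hχ.2.isCompact).isBounded.exists_norm_le
  set T' := max T T0 with hT'
  have hTT : T ≤ T' := le_max_left _ _
  have hχs : ∀ y, T' < ‖y‖ → χ y = 0 := by
    intro y hy
    by_contra hne
    have := hT0 y (subset_tsupport χ hne)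
    exact absurd (lt_of_le_of_lt (le_max_right T T0) hy) (not_lt.mpr this)
  have hg' := l2c_cut D hg hgi (T' + 1)
  obtain ⟨K, hK⟩ := energy hMo hL1 D hφ hg' hTT (l1hyp D horth (T' + 1)) hχ hχb hχ1 hχs hη hGam
    hlow
  obtain ⟨ρ1, hρ1, hρ1b⟩ := up D.sρ.continuous T'
  have hsC : ∀ p q, ContDiff ℝ (⊤ : ℕ∞) fun y => ρ y * A y p q := fun p q => D.sρ.mul (D.sA p q)
  have hlim : Tendsto (fun ε : ℝ => 20 * η * ρ1 * (∫ x, (moll φ (cutg g (T' + 1)) ε x -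
      cutg g (T' + 1) x) ^ 2) + K * ∑ q, ∫ x in {x : ι → ℝ | ‖x‖ ≤ T'},
          (Th (fun x p q => ρ x * A x p q) φ (cutg g (T' + 1)) ε q x -
            ∑ p, (ρ x * A x p q) * mollD φ (cutg g (T' + 1)) ε p x) ^ 2) (𝓝[>] 0)
      (𝓝 (20 * η * ρ1 * 0 + K * ∑ _q : ι, (0 : ℝ))) := by
    refine (((hMo ι φ _ hφ hg').2).const_mul _).add (Tendsto.const_mul _ ?_)
    refine tendsto_finset_sum _ fun q _ => ?_
    exact hFr ι φ _ (fun x p q => ρ x * A x p q) hφ hg' hsC q T'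
  have hlim' : ∀ᶠ ε : ℝ in 𝓝[>] 0, 20 * η * ρ1 * (∫ x, (moll φ (cutg g (T' + 1)) ε x -
      cutg g (T' + 1) x) ^ 2) + K * ∑ q, ∫ x in {x : ι → ℝ | ‖x‖ ≤ T'},
          (Th (fun x p q => ρ x * A x p q) φ (cutg g (T' + 1)) ε q x -
            ∑ p, (ρ x * A x p q) * mollD φ (cutg g (T' + 1)) ε p x) ^ 2 < η := by
    refine hlim.eventually_lt_const ?_
    simpa using hη
  have hev1 : ∀ᶠ ε : ℝ in 𝓝[>] 0, 0 < ε := self_mem_nhdsWithin
  have hev2 : ∀ᶠ ε : ℝ in 𝓝[>] 0, ε ≤ 1 := by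
    have : ∀ᶠ ε : ℝ in 𝓝 0, ε ≤ 1 := (eventually_lt_nhds one_pos).mono fun _ h => h.le
    exact this.filter_mono nhdsWithin_le_nhds
  filter_upwards [hlim', hev1, hev2] with ε h1 h2 h3
  have hsame : ∫ x in {x : ι → ℝ | ‖x‖ ≤ T},
      ∑ p, mollD φ (fun z => if ‖z‖ ≤ T + 1 then g z else 0) ε p x ^ 2 =
      ∫ x in {x : ι → ℝ | ‖x‖ ≤ T}, ∑ p, mollD φ (cutg g (T' + 1)) ε p x ^ 2 := by
    refine setIntegral_congr_fun (cpt T).measurableSet ?_
    intro x hx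
    refine Finset.sum_congr rfl fun p _ => ?_
    have := mollD_cut (g := g) hφ hTT h2 h3 p x hx
    show mollD φ (cutg g (T + 1)) ε p x ^ 2 = _
    rw [this]
  rw [hsame, Real.dist_eq, sub_zero, abs_of_nonneg (integral_nonneg fun x =>
    Finset.sum_nonneg fun p _ => sq_nonneg _)]
  have hk := hK ε h2 h3
  -- the middle term
  have hGt := moll_tst hMo hφ hg' h2
  have hGc : Continuous (moll φ (cutg g (T' + 1)) ε) := hGt.1.continuous
  have hdi : Integrable fun x => (moll φ (cutg g (T' + 1)) ε x - cutg g (T' + 1) x) ^ 2 := by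
    have hG2 : Integrable fun x => moll φ (cutg g (T' + 1)) ε x ^ 2 := by
      refine (hGc.pow 2).integrable_of_hasCompactSupport ?_
      rw [pow_two]
      exact hGt.2.mul_left
    refine ((hG2.const_mul 2).add (hg'.sq.const_mul 2)).mono'
      ((hGc.aestronglyMeasurable.sub hg'.meas).pow 2) (Eventually.of_forall fun x => ?_)
    rw [Real.norm_eq_abs, abs_of_nonneg (sq_nonneg _)]
    show _ ≤ 2 * moll φ (cutg g (T' + 1)) ε x ^ 2 + 2 * cutg g (T' + 1) x ^ 2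
    nlinarith [sq_nonneg (moll φ (cutg g (T' + 1)) ε x + cutg g (T' + 1) x)]
  have hmid : ∫ x in {x : ι → ℝ | ‖x‖ ≤ T'}, ρ x * moll φ (cutg g (T' + 1)) ε x ^ 2 ≤
      2 * ρ1 * (∫ x, (moll φ (cutg g (T' + 1)) ε x - cutg g (T' + 1) x) ^ 2) +
      2 * ∫ y, g y ^ 2 * ρ y := by
    have hint : Integrable fun x => 2 * ρ1 * (moll φ (cutg g (T' + 1)) ε x -
        cutg g (T' + 1) x) ^ 2 + 2 * (g x ^ 2 * ρ x) :=
      (hdi.const_mul _).add (hgi.const_mul _)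
    calc ∫ x in {x : ι → ℝ | ‖x‖ ≤ T'}, ρ x * moll φ (cutg g (T' + 1)) ε x ^ 2
        ≤ ∫ x in {x : ι → ℝ | ‖x‖ ≤ T'}, (2 * ρ1 * (moll φ (cutg g (T' + 1)) ε x -
        cutg g (T' + 1) x) ^ 2 + 2 * (g x ^ 2 * ρ x)) := by
          refine setIntegral_mono_on (iOn (D.sρ.continuous.mul (hGc.pow 2)) T')
            hint.integrableOn (cpt T').measurableSet ?_
          intro x hx
          have hx' : ‖x‖ ≤ T' := hx
          have hcut : cutg g (T' + 1) x = g x := by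
            unfold cutg
            rw [if_pos (by linarith)]
          show ρ x * moll φ (cutg g (T' + 1)) ε x ^ 2 ≤ _
          have hr : ρ x ≤ ρ1 := le_trans (le_abs_self _) (hρ1b x hx')
          have hr0 := D.pos x
          have k1 : ρ x * moll φ (cutg g (T' + 1)) ε x ^ 2 ≤
              2 * ρ x * (moll φ (cutg g (T' + 1)) ε x - g x) ^ 2 + 2 * (g x ^ 2 * ρ x) := by
            have : 0 ≤ ρ x * (moll φ (cutg g (T' + 1)) ε x - 2 * g x) ^ 2 := by positivity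
            nlinarith
          have k2 : 2 * ρ x * (moll φ (cutg g (T' + 1)) ε x - g x) ^ 2 ≤
              2 * ρ1 * (moll φ (cutg g (T' + 1)) ε x - g x) ^ 2 :=
            mul_le_mul_of_nonneg_right (by linarith) (sq_nonneg _)
          rw [hcut]
          linarith
      _ ≤ ∫ x, (2 * ρ1 * (moll φ (cutg g (T' + 1)) ε x -
        cutg g (T' + 1) x) ^ 2 + 2 * (g x ^ 2 * ρ x)) := by
          refine setIntegral_le_integral hint (Eventually.of_forall fun x => ?_)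
          have := (D.pos x).le
          show 0 ≤ _
          positivity
      _ = _ := by
          rw [integral_add (hdi.const_mul _) (hgi.const_mul _), integral_const_mul,
            integral_const_mul]
  have hfin : c * ∫ x in {x : ι → ℝ | ‖x‖ ≤ T}, ∑ p, mollD φ (cutg g (T' + 1)) ε p x ^ 2 ≤
      η * (20 * (∫ y, g y ^ 2 * ρ y) + 1) := by
    have := mul_le_mul_of_nonneg_left hmid (by positivity : (0 : ℝ) ≤ 10 * η)
    linarith
  have hval : η * (20 * (∫ y, g y ^ 2 * ρ y) + 1) = c * (e / 2) := by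
    rw [hηd]
    field_simp
  rw [hval] at hfin
  have := le_of_mul_le_mul_left hfin hc
  linarith

end Pool.Agent.Lib.MP_fa837f_gt.P2.H84
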